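import Pool.Agent.Lib.MP_b5021c_nt.IfaceS2a
import Pool.Agent.Lib.MP_b5021c_nt.H40.Pca

/-!
# Board b5, stage 2, row T_PCH: second Taylor coefficient of the analytic part

`g = c/(1 - T z) + r/s`, `|g| ≤ 1` on the circle. The Cauchy integral of `g z⁻²` is the
derivative of `r/s` at `0`.
-/

namespace Pool.Agent.B5.H31

open Polynomial Metric
open Pool.Agent.B5.H40 (one_sub_ne int_zero int_quot cont_quot)

/-- The integral of `z⁻²` over the unit circle is zero. -/
theorem int_sq : (∮ z in C(0, 1), (z - 0 : ℂ) ^ (-2 : ℤ)) = 0 :=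
  circleIntegral.integral_sub_zpow_of_ne (by norm_num) _ _ _

theorem pch : PchS := by
  intro r s T c hT hs hle
  have hs0 : s.eval 0 ≠ 0 := hs 0 (by simp)
  -- divide by `X`
  obtain ⟨r1, hr1⟩ : X ∣ C (s.eval 0) * r - C (r.eval 0) * s := by
    rw [X_dvd_iff, coeff_zero_eq_eval_zero]
    simp only [eval_sub, eval_mul, eval_C]
    ring
  have hr10 : r1.eval 0 =
      (derivative r).eval 0 * s.eval 0 - r.eval 0 * (derivative s).eval 0 := by
    have h := congrArg (fun p : ℂ[X] => (derivative p).eval 0) hr1
    simp only [derivative_sub, derivative_mul, derivative_C, derivative_X, eval_sub, eval_add,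
      eval_mul, eval_C, eval_X, zero_mul, zero_add, add_zero, one_mul] at h
    linear_combination -h
  have hr1e : ∀ z : ℂ, s.eval 0 * r.eval z - r.eval 0 * s.eval z = z * r1.eval z := by
    intro z
    have h := congrArg (fun p : ℂ[X] => p.eval z) hr1
    simpa using h
  have hs' : ∀ z : ℂ, ‖z‖ ≤ 1 → (C (s.eval 0) * s).eval z ≠ 0 := by
    intro z hz
    rw [eval_mul, eval_C]
    exact mul_ne_zero hs0 (hs z hz)
  have hI1 : (∮ z in C(0, 1), z⁻¹ * (z⁻¹ *
        ((C c * s + (1 - C T * X) * r).eval z / ((1 - C T * X) * s).eval z))) =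
      2 * Real.pi * Complex.I * (r1.eval 0 / (C (s.eval 0) * s).eval 0) := by
    have h1 : (∮ z in C(0, 1), z⁻¹ * (z⁻¹ *
        ((C c * s + (1 - C T * X) * r).eval z / ((1 - C T * X) * s).eval z))) =
        ∮ z in C(0, 1), ((c + r.eval 0 / s.eval 0) * (z - 0) ^ (-2 : ℤ) +
          ((c * T) * (z⁻¹ * (1 - T * z)⁻¹) +
            z⁻¹ * (r1.eval z / (C (s.eval 0) * s).eval z))) := by
      apply circleIntegral.integral_congr zero_le_one
      intro z hz
      have hz1 : ‖z‖ = 1 := by simpa using hz
      have hz0 : z ≠ 0 := norm_pos_iff.mp (by linarith)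
      have h2 := one_sub_ne T z hT hz1
      have h3 := hs z hz1.le
      have h4 := hr1e z
      have h5 : r.eval z = (z * r1.eval z + r.eval 0 * s.eval z) / s.eval 0 := by
        rw [eq_div_iff hs0]
        linear_combination h4
      change z⁻¹ * (z⁻¹ *
        ((C c * s + (1 - C T * X) * r).eval z / ((1 - C T * X) * s).eval z)) =
        (c + r.eval 0 / s.eval 0) * (z - 0) ^ (-2 : ℤ) +
          ((c * T) * (z⁻¹ * (1 - T * z)⁻¹) +
            z⁻¹ * (r1.eval z / (C (s.eval 0) * s).eval z))
      have h6 : (z - 0 : ℂ) ^ (-2 : ℤ) = z⁻¹ * z⁻¹ := by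
        rw [sub_zero, zpow_neg, ← mul_inv]
        congr 1
        rw [← sq]
        norm_cast
      rw [h6]
      simp only [eval_add, eval_mul, eval_C, eval_sub, eval_one, eval_X]
      rw [h5]
      have h7 : T * z = 1 - (1 - T * z) := by ring
      generalize 1 - T * z = D at h2 h7 ⊢
      generalize s.eval z = S at h3 ⊢
      generalize r1.eval z = R
      generalize r.eval 0 = R0
      generalize s.eval 0 = S0 at hs0 ⊢
      have h8 : T = (1 - D) / z := by
        rw [eq_div_iff hz0]; exact h7
      rw [h8]
      field_simp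
      ring
    rw [h1, circleIntegral.integral_add, circleIntegral.integral_add,
      circleIntegral.integral_const_mul, circleIntegral.integral_const_mul, int_sq,
      int_zero T hT, mul_zero, mul_zero, zero_add, zero_add, int_quot r1 (C (s.eval 0) * s) hs']
    · apply ContinuousOn.circleIntegrable zero_le_one
      apply ContinuousOn.mul continuousOn_const
      apply ContinuousOn.mul
      · apply ContinuousOn.inv₀ (by fun_prop)
        intro z hz
        have hz1 : ‖z‖ = 1 := by simpa using hz
        exact norm_pos_iff.mp (by linarith)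
      · apply ContinuousOn.inv₀ (by fun_prop)
        intro z hz
        have hz1 : ‖z‖ = 1 := by simpa using hz
        exact one_sub_ne T z hT hz1
    · apply ContinuousOn.circleIntegrable zero_le_one
      exact cont_quot r1 (C (s.eval 0) * s) hs'
    · apply ContinuousOn.circleIntegrable zero_le_one
      apply ContinuousOn.mul continuousOn_const
      apply ContinuousOn.zpow₀ (by fun_prop)
      intro z hz
      left
      have hz1 : ‖z‖ = 1 := by simpa using hz
      rw [sub_zero]
      exact norm_pos_iff.mp (by linarith)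
    · apply ContinuousOn.circleIntegrable zero_le_one
      apply ContinuousOn.add
      · apply ContinuousOn.mul continuousOn_const
        apply ContinuousOn.mul
        · apply ContinuousOn.inv₀ (by fun_prop)
          intro z hz
          have hz1 : ‖z‖ = 1 := by simpa using hz
          exact norm_pos_iff.mp (by linarith)
        · apply ContinuousOn.inv₀ (by fun_prop)
          intro z hz
          have hz1 : ‖z‖ = 1 := by simpa using hz
          exact one_sub_ne T z hT hz1
      · exact cont_quot r1 (C (s.eval 0) * s) hs'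
  have hI2 : ‖∮ z in C(0, 1), z⁻¹ * (z⁻¹ *
        ((C c * s + (1 - C T * X) * r).eval z / ((1 - C T * X) * s).eval z))‖ ≤
      2 * Real.pi * 1 * 1 := by
    apply circleIntegral.norm_integral_le_of_norm_le_const zero_le_one
    intro z hz
    have hz1 : ‖z‖ = 1 := by simpa using hz
    have h2 := one_sub_ne T z hT hz1
    have h3 := hs z hz1.le
    have h4 : 0 < ‖((1 - C T * X) * s).eval z‖ := by
      rw [eval_mul]
      simp only [eval_sub, eval_one, eval_mul, eval_C, eval_X]
      exact norm_pos_iff.mpr (mul_ne_zero h2 h3)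
    rw [norm_mul, norm_mul, norm_inv, hz1, inv_one, one_mul, one_mul, norm_div,
      div_le_iff₀ h4, one_mul]
    exact hle z hz1
  rw [hI1, norm_mul] at hI2
  have h5 : ‖(2 : ℂ) * Real.pi * Complex.I‖ = 2 * Real.pi := by
    rw [norm_mul, norm_mul, Complex.norm_I, mul_one, Complex.norm_real, Real.norm_eq_abs,
      abs_of_pos Real.pi_pos]
    norm_num
  rw [h5, mul_one] at hI2
  have h6 : ‖r1.eval 0 / (C (s.eval 0) * s).eval 0‖ ≤ 1 :=
    le_of_mul_le_mul_left hI2 (by positivity)
  have h7 : 0 < ‖(C (s.eval 0) * s).eval 0‖ := norm_pos_iff.mpr (hs' 0 (by simp))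
  rw [norm_div, div_le_iff₀ h7, one_mul, hr10, eval_mul, eval_C, norm_mul, ← sq] at h6
  exact h6

end Pool.Agent.B5.H31
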