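import Pool.Agent.Lib.MP_b5021c_nt.IfaceE2

/-!
# MP_b5021c_nt, row E2_PSN (helper31): the Poisson inequality
-/

namespace Pool.Agent.B5.H31.Psn

open scoped LaurentPolynomial Topology
open Polynomial Filter

/-- The case `v = 1`. -/
theorem psn_one (hPsc : PscS) (hFat : FatS) (p e : ℂ[X]) (a : ℂ) (h : PHyp p e a 1) :
    CircleIntegrable (fun z => (p.eval z / (z * e.eval z)).re) 0 1 ∧
    1 + Real.circleAverage
      (fun z => (1 - ‖a‖ ^ 2) / ‖z - a‖ ^ 2 * (p.eval z / (z * e.eval z)).re) 0 1 ≤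
    -(p.eval 0 / e.eval 0 * (1 / a - (starRingEnd ℂ) a)).re := by
  obtain ⟨F, hF1, hF2, hF3, hF4⟩ := hPsc p e a h
  have ha1 := h.a1
  have ha2 : 0 < 1 - ‖a‖ ^ 2 := by
    have := norm_nonneg a
    nlinarith
  have he0 : e ≠ 0 := by
    intro h0
    have := h.e0 0 (by simp)
    rw [h0] at this
    simp at this
  have hE : {z : ℂ | e.eval z = 0}.Finite := by
    refine Set.Finite.subset (Finset.finite_toSet e.roots.toFinset) ?_
    intro s hs
    simp only [Finset.mem_coe, Multiset.mem_toFinset, Polynomial.mem_roots he0]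
    exact hs
  -- facts on the circle
  have hconj : ∀ z : ℂ, ‖z‖ = 1 → z⁻¹ = (starRingEnd ℂ) z := fun z hz =>
    Complex.inv_eq_conj hz
  have hza : ∀ z : ℂ, ‖z‖ = 1 → z - a ≠ 0 := by
    intro z hz h0
    rw [sub_eq_zero] at h0
    rw [h0] at hz
    linarith
  have hden : ∀ z : ℂ, ‖z‖ = 1 → (1 - a / z) * (1 - (starRingEnd ℂ) a * z) =
      ((‖z - a‖ ^ 2 : ℝ) : ℂ) := by
    intro z hz
    have hz0 : z ≠ 0 := by
      intro h0
      rw [h0, norm_zero] at hz
      exact zero_ne_one hz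
    have e1 : (starRingEnd ℂ) z = z⁻¹ := (hconj z hz).symm
    rw [Complex.ofReal_pow, ← Complex.mul_conj', map_sub, e1]
    field_simp
  have hlim : ∀ z : ℂ, ‖z‖ = 1 → z ∉ {z : ℂ | e.eval z = 0} →
      Tendsto (fun t : ℝ => (F (t * z)).re) (𝓝[<] 1)
        (𝓝 ((1 - ‖a‖ ^ 2) / ‖z - a‖ ^ 2 * (p.eval z / (z * e.eval z)).re)) := by
    intro z hz hzE
    have hez : e.eval z ≠ 0 := hzE
    have hz0 : z ≠ 0 := by
      intro h0
      rw [h0, norm_zero] at hz
      exact zero_ne_one hz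
    have hd := hden z hz
    have hn0 : 0 < ‖z - a‖ ^ 2 := pow_pos (norm_pos_iff.mpr (hza z hz)) 2
    have hdz : (1 - a / z) * (1 - (starRingEnd ℂ) a * z) ≠ 0 := by
      rw [hd]
      exact_mod_cast hn0.ne'
    let Φ : ℂ → ℂ := fun z => ((1 - ‖a‖ ^ 2) * (p.eval z / (z * e.eval z)) + a / z
      - (starRingEnd ℂ) a * z) / ((1 - a / z) * (1 - (starRingEnd ℂ) a * z))
    have hΦc : ContinuousAt Φ z := by
      have c1 : ContinuousAt (fun z : ℂ => p.eval z) z := (Polynomial.continuous _).continuousAt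
      have c2 : ContinuousAt (fun z : ℂ => e.eval z) z := (Polynomial.continuous _).continuousAt
      have c3 : ContinuousAt (fun z : ℂ => z) z := continuousAt_id
      have c4 : ContinuousAt (fun z : ℂ => a / z) z := continuousAt_const.div c3 hz0
      exact (((continuousAt_const.mul (c1.div (c3.mul c2) (mul_ne_zero hz0 hez))).add c4).sub
        (continuousAt_const.mul c3)).div ((continuousAt_const.sub c4).mul
          (continuousAt_const.sub (continuousAt_const.mul c3))) hdz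
    have hΦz : (Φ z).re = (1 - ‖a‖ ^ 2) / ‖z - a‖ ^ 2 * (p.eval z / (z * e.eval z)).re := by
      show (((1 - ‖a‖ ^ 2) * (p.eval z / (z * e.eval z)) + a / z
        - (starRingEnd ℂ) a * z) / ((1 - a / z) * (1 - (starRingEnd ℂ) a * z))).re = _
      rw [hd, Complex.div_ofReal_re, Complex.sub_re, Complex.add_re]
      have e1 : (a / z).re = ((starRingEnd ℂ) a * z).re := by
        rw [div_eq_mul_inv, hconj z hz, ← Complex.conj_re]
        simp only [map_mul, Complex.conj_conj]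
      have e2 : ((1 - ((‖a‖ : ℝ) : ℂ) ^ 2) * (p.eval z / (z * e.eval z))).re =
          (1 - ‖a‖ ^ 2) * (p.eval z / (z * e.eval z)).re := by
        have : (1 - ((‖a‖ : ℝ) : ℂ) ^ 2) = ((1 - ‖a‖ ^ 2 : ℝ) : ℂ) := by push_cast; rfl
        rw [this, Complex.re_ofReal_mul]
      rw [e1, e2]
      ring
    have hline : Tendsto (fun t : ℝ => (t : ℂ) * z) (𝓝[<] 1) (𝓝 z) := by
      have h1 : Continuous fun t : ℝ => (t : ℂ) * z :=
        Complex.continuous_ofReal.mul continuous_const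
      have h2 := h1.tendsto 1
      simp only [Complex.ofReal_one, one_mul] at h2
      exact h2.mono_left nhdsWithin_le_nhds
    have h1 : Tendsto (fun t : ℝ => (Φ (t * z)).re) (𝓝[<] 1) (𝓝 ((Φ z).re)) :=
      (Complex.continuous_re.continuousAt.tendsto).comp (hΦc.tendsto.comp hline)
    rw [hΦz] at h1
    refine h1.congr' ?_
    have hI : Set.Ioo (max 0 ‖a‖) 1 ∈ 𝓝[<] (1 : ℝ) :=
      Ioo_mem_nhdsLT (max_lt one_pos ha1)
    filter_upwards [hI] with t ht
    have ht0 : 0 < t := lt_of_le_of_lt (le_max_left _ _) ht.1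
    have hta : ‖a‖ < t := lt_of_le_of_lt (le_max_right _ _) ht.1
    have hnt : ‖(t : ℂ) * z‖ = t := by
      rw [norm_mul, hz, mul_one, Complex.norm_real, Real.norm_eq_abs, abs_of_pos ht0]
    rw [hF4 ((t : ℂ) * z) (by rw [hnt]; exact ht.2)
      (mul_ne_zero (by exact_mod_cast ht0.ne') hz0)
      (fun h0 => by rw [h0] at hnt; linarith)]
  obtain ⟨h1, h2⟩ := hFat F _ _ hE hF1 hF2 hlim
  constructor
  · have h3 : ∀ θ : ℝ, (fun z : ℂ => (p.eval z / (z * e.eval z)).re) (circleMap 0 1 θ) =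
        (fun z : ℂ => (1 - ‖a‖ ^ 2) / ‖z - a‖ ^ 2 * (p.eval z / (z * e.eval z)).re)
          (circleMap 0 1 θ) * (‖circleMap 0 1 θ - a‖ ^ 2 / (1 - ‖a‖ ^ 2)) := by
      intro θ
      have hz : ‖circleMap 0 1 θ‖ = 1 := by simp
      have := (norm_pos_iff.mpr (hza _ hz)).ne'
      have := ha2.ne'
      simp only []
      field_simp
    have hc : Continuous fun θ : ℝ => ‖circleMap 0 1 θ - a‖ ^ 2 / (1 - ‖a‖ ^ 2) :=
      (((continuous_circleMap 0 1).sub continuous_const).norm.pow 2).div_const _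
    exact (IntervalIntegrable.mul_continuousOn h1 hc.continuousOn).congr
      (fun θ _ => (h3 θ).symm)
  · rw [hF3, Complex.sub_re, Complex.neg_re, Complex.one_re] at h2
    linarith

theorem psn (hPsc : PscS) (hFat : FatS) : PsnS := by
  intro p e a v h
  have hv := h.v0
  have hvC : (v : ℂ) ≠ 0 := by exact_mod_cast hv.ne'
  have hq : C ((v⁻¹ : ℝ) : ℂ) * p + C ((1 : ℝ) : ℂ) * X * e =
      C ((v⁻¹ : ℝ) : ℂ) * (p + C (v : ℂ) * X * e) := by
    have : C ((1 : ℝ) : ℂ) = C ((v⁻¹ : ℝ) : ℂ) * C (v : ℂ) := by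
      rw [← C_mul]
      congr 1
      push_cast
      field_simp
    rw [this]
    ring
  have hvi : ((v⁻¹ : ℝ) : ℂ) ≠ 0 := by exact_mod_cast (inv_ne_zero hv.ne')
  have h' : PHyp (C ((v⁻¹ : ℝ) : ℂ) * p) e a 1 := by
    refine ⟨one_pos, h.a0, h.a1, h.e0, ?_, ?_, ?_⟩
    · intro z hz
      rw [eval_mul, eval_C, mul_assoc, Complex.re_ofReal_mul]
      exact mul_nonneg (inv_pos.mpr hv).le (h.re z hz)
    · intro z hz
      rw [hq, eval_mul, eval_C]
      exact mul_ne_zero hvi (h.nz z hz)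
    · rw [hq, roots_C_mul _ hvi]
      exact h.one
  obtain ⟨h1, h2⟩ := psn_one hPsc hFat _ e a h'
  have hre : ∀ z : ℂ, ((C ((v⁻¹ : ℝ) : ℂ) * p).eval z / (z * e.eval z)).re =
      v⁻¹ * (p.eval z / (z * e.eval z)).re := by
    intro z
    rw [eval_mul, eval_C, mul_div_assoc, Complex.re_ofReal_mul]
  constructor
  · simp only [hre] at h1
    have h3 := IntervalIntegrable.const_mul h1 v
    unfold CircleIntegrable
    refine h3.congr (fun θ _ => ?_)
    simp only []
    rw [← mul_assoc, mul_inv_cancel₀ hv.ne', one_mul]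
  · have h3 : Real.circleAverage (fun z => (1 - ‖a‖ ^ 2) / ‖z - a‖ ^ 2 *
        ((C ((v⁻¹ : ℝ) : ℂ) * p).eval z / (z * e.eval z)).re) 0 1 =
        v⁻¹ * Real.circleAverage (fun z => (1 - ‖a‖ ^ 2) / ‖z - a‖ ^ 2 *
        (p.eval z / (z * e.eval z)).re) 0 1 := by
      rw [← smul_eq_mul v⁻¹, ← Real.circleAverage_fun_smul]
      congr 1
      funext z
      rw [hre, smul_eq_mul]
      ring
    have h4 : ((C ((v⁻¹ : ℝ) : ℂ) * p).eval 0 / e.eval 0 * (1 / a - (starRingEnd ℂ) a)).re =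
        v⁻¹ * (p.eval 0 / e.eval 0 * (1 / a - (starRingEnd ℂ) a)).re := by
      rw [eval_mul, eval_C, mul_div_assoc, mul_assoc, Complex.re_ofReal_mul]
    rw [h3, h4] at h2
    have h5 := mul_le_mul_of_nonneg_left h2 hv.le
    have h6 : v * v⁻¹ = 1 := mul_inv_cancel₀ hv.ne'
    rw [mul_add, ← mul_assoc, h6, mul_neg, ← mul_assoc, h6] at h5
    linarith

end Pool.Agent.B5.H31.Psn
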