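import Pool.Agent.Lib.MP_b5021c_nt.IfaceE3

/-!
# MP_b5021c_nt, row E3_QP (helper31): the quotient is nonnegative on the torus
-/

namespace Pool.Agent.B5.H31.Qp

open scoped LaurentPolynomial
open Polynomial

theorem dense_compl (s : Set Circle) (hs : s.Finite) : Dense sᶜ := by
  have hnt : Nontrivial Circle := by
    refine ⟨⟨1, Circle.exp Real.pi, fun h => ?_⟩⟩
    have h1 := congrArg (fun w : Circle => (w : ℂ)) h
    simp only [Circle.coe_one, Circle.coe_exp, Complex.exp_pi_mul_I] at h1
    norm_num at h1
  have := Dense.sdiff_finite (dense_univ (X := Circle)) hs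
  rwa [← Set.compl_eq_univ_sdiff] at this

section

variable {O : Type} [CommRing O] [Coef O] {L : Type} [AddCommGroup L]

theorem nn_spec {X : AO O L} {lam : L →+ ℤ} (h : Nn lam X) (z : Circle) : Nn lam (spec z X) := by
  intro a ha
  apply h
  rw [Finsupp.mem_support_iff, spec_coeff] at ha
  rw [Finsupp.mem_support_iff]
  intro h0
  exact ha (by rw [h0, map_zero])

omit [Coef O] in
theorem pos_nn {X : AO O L} {lam : L →+ ℤ} (h : Pos lam X) : Nn lam X := by
  intro a ha
  by_cases h0 : a = 0
  · rw [h0, map_zero]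
  · exact (h a ha h0).le

theorem twist_one (u : AddChar L Circle) (lam : L →+ ℤ) : twist u lam 1 = u := by
  ext a
  simp [twist]

theorem continuous_twist (u : AddChar L Circle) (lam : L →+ ℤ) (p : CA L) :
    Continuous fun s : Circle => evC (twist u lam s) p := by
  simp only [evC_apply]
  unfold Finsupp.sum
  refine continuous_finsetSum _ fun a _ => continuous_const.mul ?_
  have h : Continuous fun s : Circle => u a * s ^ (lam a) :=
    continuous_const.mul (continuous_zpow (lam a))
  exact continuous_subtype_val.comp h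

theorem ev_cst (z : Circle) (u : AddChar L Circle) (c : RO O) : ev z u (cst c) = evR z c := by
  show evC u (spec z (cst c)) = evR z c
  rw [evC_apply]
  have h : spec z (cst (L := L) c) = AddMonoidAlgebra.single 0 (evR z c) := by
    simp [spec, cst]
  rw [h]
  have h1 : (AddMonoidAlgebra.single (0 : L) (evR z c)).coeff = Finsupp.single 0 (evR z c) := rfl
  rw [h1, Finsupp.sum_single_index (by simp)]
  simp

end

/-- The general statement: `F = q g^#` is nonnegative on the torus. -/
theorem nonneg_of (hev : EvRS) (hsh : SharpS) (hsl : SlEvalS)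
    {O : Type} [CommRing O] [IsDomain O] [IsPrincipalIdealRing O] [Coef O] {K : Type}
    [AddCommGroup K] [Module.Free ℤ K] [Module.Finite ℤ K] (X U q : AO O K) (g : RO O)
    (lam : K →+ ℤ)
    (e1 : X * sharp (cst g * U) + sharp X * (cst g * U) - cst g * U * sharp (cst g * U) =
      q * cst (rsh g) * (U * sharp U))
    (hrq : q * cst (rsh g) = sharp q * cst g) (hX : Pos lam X) (hU : Pos lam U) (z : Circle)
    (u : AddChar K Circle)
    (hV1 : ∀ s : ℂ, ‖s‖ < 1 → (sl u lam (spec z U)).eval s ≠ 0 ∧
      ‖evR z g * (sl u lam (spec z U)).eval s‖ ^ 2 ≤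
          2 * ((sl u lam (spec z X)).eval s * (starRingEnd ℂ)
            (evR z g * (sl u lam (spec z U)).eval s)).re) :
    (ev z u (q * cst (rsh g))).im = 0 ∧ 0 ≤ (ev z u (q * cst (rsh g))).re := by
  -- real
  have shc : ∀ (u : AddChar K Circle) (F : AO O K), ev z u (sharp F) =
      (starRingEnd ℂ) (ev z u F) := fun u F => (hsh O K F).1 z u
  have hrg : evR z (rsh g) = (starRingEnd ℂ) (evR z g) := (hev O).2.2.1 z g
  have hreal : ∀ u : AddChar K Circle, (ev z u (q * cst (rsh g))).im = 0 := by
    intro u
    have h1 := congrArg (ev z u) hrq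
    have h2 : (starRingEnd ℂ) (ev z u (q * cst (rsh g))) = ev z u (q * cst (rsh g)) := by
      conv_rhs => rw [h1]
      rw [map_mul, map_mul, map_mul, shc, ev_cst, ev_cst, hrg, Complex.conj_conj]
    exact Complex.conj_eq_iff_im.mp h2
  refine ⟨hreal u, ?_⟩
  -- the inequality on the closed disc
  have hcl : ∀ s : ℂ, ‖s‖ ≤ 1 →
      ‖evR z g * (sl u lam (spec z U)).eval s‖ ^ 2 ≤
          2 * ((sl u lam (spec z X)).eval s * (starRingEnd ℂ)
            (evR z g * (sl u lam (spec z U)).eval s)).re := by
    intro s hs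
    have c1 : Continuous fun s : ℂ => (sl u lam (spec z U)).eval s := Polynomial.continuous _
    have c2 : Continuous fun s : ℂ => (sl u lam (spec z X)).eval s := Polynomial.continuous _
    have c3 : Continuous fun s : ℂ => ‖evR z g * (sl u lam (spec z U)).eval s‖ ^ 2 :=
      ((continuous_const.mul c1).norm).pow 2
    have c4 : Continuous fun s : ℂ => 2 * ((sl u lam (spec z X)).eval s * (starRingEnd ℂ)
            (evR z g * (sl u lam (spec z U)).eval s)).re :=
      continuous_const.mul (Complex.continuous_re.comp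
        (c2.mul (Complex.continuous_conj.comp (continuous_const.mul c1))))
    have hcls := isClosed_le c3 c4
    have hsub : Metric.ball (0 : ℂ) 1 ⊆ {s : ℂ | ‖evR z g * (sl u lam (spec z U)).eval s‖ ^ 2 ≤
        2 * ((sl u lam (spec z X)).eval s * (starRingEnd ℂ)
            (evR z g * (sl u lam (spec z U)).eval s)).re} := by
      intro s hs
      rw [mem_ball_zero_iff] at hs
      exact (hV1 s hs).2
    have h3 := closure_minimal hsub hcls
    rw [closure_ball (0 : ℂ) one_ne_zero] at h3
    exact h3 (mem_closedBall_zero_iff.mpr hs)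
  -- nonnegative where the slice of `U` does not vanish
  have hgood : ∀ s : Circle, (sl u lam (spec z U)).eval (s : ℂ) ≠ 0 →
      0 ≤ (ev z (twist u lam s) (q * cst (rsh g))).re := by
    intro s hs
    have h1 := hcl (s : ℂ) (le_of_eq (Circle.norm_coe s))
    have sU := (hsl K u lam (spec z U) (nn_spec (pos_nn hU) z)).1 s
    have sX := (hsl K u lam (spec z X) (nn_spec (pos_nn hX) z)).1 s
    rw [sU] at hs
    rw [sU, sX] at h1
    have h2 := congrArg (ev z (twist u lam s)) e1
    simp only [map_mul, map_sub, map_add, shc, ev_cst] at h2 ⊢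
    change ev z (twist u lam s) U ≠ 0 at hs
    change ‖evR z g * ev z (twist u lam s) U‖ ^ 2 ≤ 2 * (ev z (twist u lam s) X *
      (starRingEnd ℂ) (evR z g * ev z (twist u lam s) U)).re at h1
    set x := ev z (twist u lam s) X with hx
    set w := ev z (twist u lam s) U with hw
    set f := ev z (twist u lam s) q with hf
    set d := evR z g with hd
    have h3 := congrArg Complex.re h2
    have h4 : (f * evR z (rsh g) * (w * (starRingEnd ℂ) w)).re =
        (f * evR z (rsh g)).re * ‖w‖ ^ 2 := by
      rw [Complex.mul_conj, Complex.normSq_eq_norm_sq, Complex.re_mul_ofReal]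
    have h5 : (x * ((starRingEnd ℂ) d * (starRingEnd ℂ) w) + (starRingEnd ℂ) x * (d * w)
        - d * w * ((starRingEnd ℂ) d * (starRingEnd ℂ) w)).re =
        2 * (x * (starRingEnd ℂ) (d * w)).re - ‖d * w‖ ^ 2 := by
      have h6 : d * w * ((starRingEnd ℂ) d * (starRingEnd ℂ) w) = ((‖d * w‖ ^ 2 : ℝ) : ℂ) := by
        rw [← map_mul, Complex.mul_conj, Complex.normSq_eq_norm_sq]
      rw [h6, Complex.sub_re, Complex.add_re, Complex.ofReal_re, map_mul]
      have h7 : ((starRingEnd ℂ) x * (d * w)).re =
          (x * ((starRingEnd ℂ) d * (starRingEnd ℂ) w)).re := by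
        rw [← Complex.conj_re (x * _)]
        simp only [map_mul, Complex.conj_conj]
      rw [h7]
      ring
    rw [h4, h5] at h3
    have h8 : 0 ≤ (f * evR z (rsh g)).re * ‖w‖ ^ 2 := by
      rw [← h3]
      linarith
    have h9 : 0 < ‖w‖ ^ 2 := pow_pos (norm_pos_iff.mpr hs) 2
    exact nonneg_of_mul_nonneg_left h8 h9
  -- density
  have hfin : {s : Circle | (sl u lam (spec z U)).eval (s : ℂ) = 0}.Finite := by
    have h0 : (sl u lam (spec z U)) ≠ 0 := by
      intro h0
      have := (hV1 0 (by simp)).1
      rw [h0] at this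
      simp at this
    have h1 : {s : ℂ | (sl u lam (spec z U)).eval s = 0}.Finite := by
      refine Set.Finite.subset (Finset.finite_toSet (sl u lam (spec z U)).roots.toFinset) ?_
      intro s hs
      simp only [Finset.mem_coe, Multiset.mem_toFinset, Polynomial.mem_roots h0]
      exact hs
    exact h1.preimage (Subtype.val_injective.injOn)
  have hclo : IsClosed {s : Circle | 0 ≤ (ev z (twist u lam s) (q * cst (rsh g))).re} :=
    isClosed_le continuous_const (Complex.continuous_re.comp
      (continuous_twist u lam (spec z (q * cst (rsh g)))))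
  have hsub : {s : Circle | (sl u lam (spec z U)).eval (s : ℂ) = 0}ᶜ ⊆
      {s : Circle | 0 ≤ (ev z (twist u lam s) (q * cst (rsh g))).re} := fun s hs => hgood s hs
  have h4 := hclo.closure_subset_iff.mpr hsub
  rw [(dense_compl _ hfin).closure_eq] at h4
  have h5 := h4 (Set.mem_univ (1 : Circle))
  simp only [Set.mem_ofPred_eq, twist_one] at h5
  exact h5

theorem qp3 (hqu : Qu3S) (hqv : Qv3S) (hev : EvRS) (hsh : SharpS) (hsl : SlEvalS) : Qp3S := by
  intro O _ _ _ _ P L _ _ _ _ _ phi D S i0 eta h c n G l b j e hj q hQ z u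
  have e1 := hqu O P L phi D S i0 eta h c n G l b j e hj q hQ
  obtain ⟨⟨lam, hX, hU⟩, -, hV⟩ := hqv O P L phi D S i0 eta h c n G l b j e hj q hQ
  exact nonneg_of hev hsh hsl (Xo phi D i0 j) (Uo phi i0 j G l) q (c * (G l).coeff 0) lam e1
    hQ.rq hX hU z u (hV lam hX hU z u)

end Pool.Agent.B5.H31.Qp
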